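import Mathlib

set_option autoImplicit false

namespace Pool.Agent.Results.MP_42cd19_co.LinearGap

open Finset

/-- `IsMonoNonNested n m c M`: for the colouring `c` of the edges `{i,j}`, `i < j`, of the ordered
complete graph on the vertices `0 < 1 < ... < m-1` (the colour of the edge `{i,j}` with `i < j`
is `c i j`), `M` is a monochromatic non-nested matching of size `n`: a set of `n` edges `(i,j)`,
`i < j`, pairwise vertex-disjoint, no one lying strictly inside the interval spanned by another,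
and all of the same colour. -/
def IsMonoNonNested (n m : ℕ) (c : Fin m → Fin m → Bool) (M : Finset (Fin m × Fin m)) : Prop :=
  M.card = n ∧ (∀ e ∈ M, e.1 < e.2) ∧
  (∀ e ∈ M, ∀ f ∈ M, e ≠ f → e.1 ≠ f.1 ∧ e.1 ≠ f.2 ∧ e.2 ≠ f.1 ∧ e.2 ≠ f.2) ∧
  (∀ e ∈ M, ∀ f ∈ M, ¬ (e.1 < f.1 ∧ f.2 < e.2)) ∧
  ∃ col : Bool, ∀ e ∈ M, c e.1 e.2 = col

/-- Every 2-colouring of the ordered `K_m` has a monochromatic non-nested matching of size `n`. -/
def Forces (n m : ℕ) : Prop :=
  ∀ c : Fin m → Fin m → Bool, ∃ M : Finset (Fin m × Fin m), IsMonoNonNested n m c M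

/-- The Ramsey number `f(n)` of the problem. -/
noncomputable def f (n : ℕ) : ℕ := sInf {m : ℕ | Forces n m}

def NN (m : ℕ) (M : Finset (ℕ × ℕ)) : Prop :=
  (∀ e ∈ M, e.1 < e.2 ∧ e.2 < m) ∧
  ∀ e ∈ M, ∀ f ∈ M, e ≠ f →
    ((e.1 < f.1 ∧ e.2 < f.2) ∨ (f.1 < e.1 ∧ f.2 < e.2)) ∧ e.1 ≠ f.2 ∧ e.2 ≠ f.1

def LT (A B : Finset (ℕ × ℕ)) : Prop :=
  ∀ a ∈ A, ∀ b ∈ B, a.1 < b.1 ∧ a.2 < b.2 ∧ a.2 ≠ b.1

lemma nn_union {m : ℕ} {A B : Finset (ℕ × ℕ)} (hA : NN m A) (hB : NN m B) (h : LT A B) :
    NN m (A ∪ B) := by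
  refine ⟨?_, ?_⟩
  · intro e he
    rcases mem_union.1 he with he | he
    · exact hA.1 e he
    · exact hB.1 e he
  · intro e he f hf hne
    rcases mem_union.1 he with he | he <;> rcases mem_union.1 hf with hf | hf
    · exact hA.2 e he f hf hne
    · have h1 := h e he f hf
      have h2 := hB.1 f hf
      refine ⟨Or.inl ⟨h1.1, h1.2.1⟩, ?_, h1.2.2⟩
      omega
    · have h1 := h f hf e he
      have h2 := hB.1 e he
      refine ⟨Or.inr ⟨h1.1, h1.2.1⟩, ?_, ?_⟩
      · exact fun h' => h1.2.2 h'.symm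
      · omega
    · exact hB.2 e he f hf hne

lemma card_union_lt {A B : Finset (ℕ × ℕ)} (h : LT A B) : (A ∪ B).card = A.card + B.card := by
  apply card_union_of_disjoint
  rw [Finset.disjoint_left]
  intro a ha hb
  have := (h a ha a hb).1
  omega

lemma lt_union_left {A B C : Finset (ℕ × ℕ)} (h1 : LT A C) (h2 : LT B C) : LT (A ∪ B) C := by
  intro a ha b hb
  rcases mem_union.1 ha with ha | ha
  · exact h1 a ha b hb
  · exact h2 a ha b hb

/-- indexed family of edges -/
def E (I : Finset ℕ) (f g : ℕ → ℕ) : Finset (ℕ × ℕ) := I.image (fun i => (f i, g i))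

lemma mem_E {I : Finset ℕ} {f g : ℕ → ℕ} {e : ℕ × ℕ} (he : e ∈ E I f g) :
    ∃ i ∈ I, e.1 = f i ∧ e.2 = g i := by
  unfold E at he
  rcases mem_image.1 he with ⟨i, hi, rfl⟩
  exact ⟨i, hi, rfl, rfl⟩

lemma card_E {I : Finset ℕ} {f g : ℕ → ℕ} (hf : ∀ i ∈ I, ∀ j ∈ I, i < j → f i < f j) :
    (E I f g).card = I.card := by
  unfold E
  apply card_image_of_injOn
  intro i hi j hj hij
  simp only [Prod.mk.injEq] at hij
  rcases lt_trichotomy i j with h | h | h
  · have := hf i hi j hj h; omega
  · exact h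
  · have := hf j hj i hi h; omega

lemma nn_E {m : ℕ} {I : Finset ℕ} {f g : ℕ → ℕ} (hf : ∀ i ∈ I, ∀ j ∈ I, i < j → f i < f j)
    (hg : ∀ i ∈ I, ∀ j ∈ I, i < j → g i < g j) (hlt : ∀ i ∈ I, f i < g i ∧ g i < m)
    (hd : ∀ i ∈ I, ∀ j ∈ I, f i ≠ g j) : NN m (E I f g) := by
  refine ⟨?_, ?_⟩
  · intro e he
    obtain ⟨i, hi, h1, h2⟩ := mem_E he
    have := hlt i hi
    omega
  · intro e he e' he' hne
    obtain ⟨i, hi, h1, h2⟩ := mem_E he
    obtain ⟨j, hj, h3, h4⟩ := mem_E he'
    have hij : i ≠ j := by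
      rintro rfl
      exact hne (Prod.ext (by rw [h1, h3]) (by rw [h2, h4]))
    have d1 := hd i hi j hj
    have d2 := hd j hj i hi
    rcases lt_or_gt_of_ne hij with h | h
    · have a1 := hf i hi j hj h
      have a2 := hg i hi j hj h
      refine ⟨Or.inl ⟨by omega, by omega⟩, by omega, by omega⟩
    · have a1 := hf j hj i hi h
      have a2 := hg j hj i hi h
      refine ⟨Or.inr ⟨by omega, by omega⟩, by omega, by omega⟩

/-- number of edges (a+i,a+i+g), i<s, of colour col -/
def cnt (c : ℕ → ℕ → Bool) (col : Bool) (a g s : ℕ) : ℕ :=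
  ((range s).filter (fun i => c (a + i) (a + i + g) = col)).card

/-- coloured shift family -/
def Sh (c : ℕ → ℕ → Bool) (col : Bool) (a g s : ℕ) : Finset (ℕ × ℕ) :=
  E ((range s).filter (fun i => c (a + i) (a + i + g) = col)) (fun i => a + i) (fun i => a + i + g)

lemma mem_Sh {c : ℕ → ℕ → Bool} {col : Bool} {a g s : ℕ} {e : ℕ × ℕ} (he : e ∈ Sh c col a g s) :
    ∃ i, i < s ∧ e.1 = a + i ∧ e.2 = a + i + g ∧ c e.1 e.2 = col := by
  obtain ⟨i, hi, h1, h2⟩ := mem_E he
  rw [mem_filter, mem_range] at hi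
  refine ⟨i, hi.1, h1, h2, ?_⟩
  rw [h1, h2]; exact hi.2

lemma card_Sh (c : ℕ → ℕ → Bool) (col : Bool) (a g s : ℕ) :
    (Sh c col a g s).card = cnt c col a g s := by
  unfold Sh cnt
  apply card_E
  intro i _ j _ h
  omega

lemma nn_Sh {m : ℕ} (c : ℕ → ℕ → Bool) (col : Bool) {a g s : ℕ} (h1 : s ≤ g) (h2 : a + s + g ≤ m) :
    NN m (Sh c col a g s) := by
  unfold Sh
  apply nn_E
  · intro i _ j _ h; show a + i < a + j; omega
  · intro i _ j _ h; show a + i + g < a + j + g; omega
  · intro i hi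
    rw [mem_filter, mem_range] at hi
    show a + i < a + i + g ∧ a + i + g < m
    omega
  · intro i hi j hj
    rw [mem_filter, mem_range] at hi hj
    show a + i ≠ a + j + g
    omega

lemma cnt_add (c : ℕ → ℕ → Bool) (col : Bool) (a g s : ℕ) :
    cnt c col a g s + cnt c (!col) a g s = s := by
  unfold cnt
  have h := Finset.card_filter_add_card_filter_not (s := range s) (fun i => c (a + i) (a + i + g) = col)
  rw [card_range] at h
  have h2 : (range s).filter (fun i => c (a + i) (a + i + g) = !col)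
      = (range s).filter (fun i => ¬ c (a + i) (a + i + g) = col) := by
    apply filter_congr
    intro i _
    cases c (a + i) (a + i + g) <;> cases col <;> simp
  rw [h2]; exact h

/-- mono bound -/
def Bd (c : ℕ → ℕ → Bool) (m k : ℕ) : Prop :=
  ∀ col : Bool, ∀ M : Finset (ℕ × ℕ), NN m M → (∀ e ∈ M, c e.1 e.2 = col) → M.card ≤ k

lemma exists_pm (S : Finset ℕ) (s p : ℕ) (h1 : 2 * s ≤ S.card) (h2 : s ≤ p) (h3 : range p ⊆ S) :
    ∃ f g : ℕ → ℕ, (∀ i < s, ∀ j < s, i < j → f i < f j) ∧ (∀ i < s, ∀ j < s, i < j → g i < g j) ∧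
      (∀ i < s, f i < p ∧ f i < g i ∧ g i ∈ S) ∧ (∀ i < s, ∀ j < s, f i ≠ g j) := by
  classical
  let e := S.orderEmbOfFin rfl
  have he : ∀ i, e i ∈ S := fun i => S.orderEmbOfFin_mem rfl i
  have hmono : ∀ i j : Fin S.card, i < j → e i < e j := fun i j h => (e.strictMono) h
  have hlow : ∀ i : Fin S.card, (i : ℕ) < p → e i < p := by
    intro i hi
    by_contra hcon
    rw [not_lt] at hcon
    -- every x<p is e j for some j<i
    have hsub : range p ⊆ (Finset.univ.filter (fun j : Fin S.card => j < i)).image (fun j => e j) := by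
      intro x hx
      have hxS := h3 hx
      have : x ∈ Set.range e := by
        rw [show Set.range e = (S : Set ℕ) from S.range_orderEmbOfFin rfl]
        exact hxS
      obtain ⟨j, hj⟩ := this
      rw [mem_image]
      refine ⟨j, ?_, hj⟩
      rw [mem_filter]
      refine ⟨mem_univ _, ?_⟩
      by_contra hji
      rw [not_lt] at hji
      have : e i ≤ e j := e.monotone hji
      rw [mem_range] at hx
      omega
    have hc := card_le_card hsub
    rw [card_range] at hc
    have hc2 := card_image_le (s := Finset.univ.filter (fun j : Fin S.card => j < i)) (f := fun j => e j)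
    have hc3 : (Finset.univ.filter (fun j : Fin S.card => j < i)).card = i := by
      rw [show (Finset.univ.filter (fun j : Fin S.card => j < i)) = Finset.Iio i from by ext; simp]
      exact Fin.card_Iio i
    omega
  refine ⟨fun i => if h : i < S.card then e ⟨i, h⟩ else 0,
    fun i => if h : s + i < S.card then e ⟨s + i, h⟩ else 0, ?_, ?_, ?_, ?_⟩
  · intro i hi j hj hij
    have a1 : i < S.card := by omega
    have a2 : j < S.card := by omega
    simp only [a1, a2, dif_pos]
    exact hmono _ _ (by simpa using hij)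
  · intro i hi j hj hij
    have a1 : s + i < S.card := by omega
    have a2 : s + j < S.card := by omega
    simp only [a1, a2, dif_pos]
    exact hmono _ _ (by simpa using hij)
  · intro i hi
    have a1 : i < S.card := by omega
    have a2 : s + i < S.card := by omega
    simp only [a1, a2, dif_pos]
    refine ⟨hlow ⟨i, a1⟩ (by simpa using (by omega : i < p)), hmono _ _ ?_, he _⟩
    show i < s + i
    omega
  · intro i hi j hj
    have a1 : i < S.card := by omega
    have a2 : s + j < S.card := by omega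
    simp only [a1, a2, dif_pos]
    have : e ⟨i, a1⟩ < e ⟨s + j, a2⟩ := hmono _ _ (by show i < s + j; omega)
    omega

/-- reversal -/
lemma bd_rev {c : ℕ → ℕ → Bool} {m k : ℕ} (h : Bd c m k) :
    Bd (fun i j => c (m - 1 - j) (m - 1 - i)) m k := by
  intro col M hM hc
  have h1 := h col (M.image (fun e => (m - 1 - e.2, m - 1 - e.1))) ?_ ?_
  · rwa [card_image_of_injOn] at h1
    intro e he e' he' hee
    simp only [Prod.mk.injEq] at hee
    have a := hM.1 e he
    have b := hM.1 e' he'
    apply Prod.ext <;> omega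
  · refine ⟨?_, ?_⟩
    · intro e he
      rcases mem_image.1 he with ⟨x, hx, rfl⟩
      have a := hM.1 x hx
      show m - 1 - x.2 < m - 1 - x.1 ∧ m - 1 - x.1 < m
      omega
    · intro e he e' he' hne
      rcases mem_image.1 he with ⟨x, hx, rfl⟩
      rcases mem_image.1 he' with ⟨y, hy, rfl⟩
      have hxy : x ≠ y := by rintro rfl; exact hne rfl
      have a := hM.1 x hx
      have b := hM.1 y hy
      have d := hM.2 x hx y hy hxy
      show ((m - 1 - x.2 < m - 1 - y.2 ∧ m - 1 - x.1 < m - 1 - y.1) ∨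
        (m - 1 - y.2 < m - 1 - x.2 ∧ m - 1 - y.1 < m - 1 - x.1)) ∧
        m - 1 - x.2 ≠ m - 1 - y.1 ∧ m - 1 - x.1 ≠ m - 1 - y.2
      omega
  · intro e he
    rcases mem_image.1 he with ⟨x, hx, rfl⟩
    exact hc x hx

lemma cnt_rev (c : ℕ → ℕ → Bool) (col : Bool) (m a g s : ℕ) (h : a + s + g ≤ m) :
    cnt (fun i j => c (m - 1 - j) (m - 1 - i)) col a g s = cnt c col (m - a - s - g) g s := by
  unfold cnt
  apply card_bij (fun i _ => s - 1 - i)
  · intro i hi
    rw [mem_filter, mem_range] at hi ⊢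
    refine ⟨by omega, ?_⟩
    have e1 : m - a - s - g + (s - 1 - i) = m - 1 - (a + i + g) := by omega
    have e2 : m - 1 - (a + i + g) + g = m - 1 - (a + i) := by omega
    rw [e1, e2]; exact hi.2
  · intro i hi j hj hij
    rw [mem_filter, mem_range] at hi hj
    omega
  · intro i hi
    rw [mem_filter, mem_range] at hi
    refine ⟨s - 1 - i, ?_, by omega⟩
    rw [mem_filter, mem_range]
    refine ⟨by omega, ?_⟩
    have e1 : m - a - s - g + i = m - 1 - (a + (s - 1 - i) + g) := by omega
    have e2 : m - 1 - (a + (s - 1 - i) + g) + g = m - 1 - (a + (s - 1 - i)) := by omega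
    show c (m - 1 - (a + (s - 1 - i) + g)) (m - 1 - (a + (s - 1 - i))) = col
    have h2 := hi.2
    rw [e1, e2] at h2
    exact h2

lemma LT_of {A B : Finset (ℕ × ℕ)} (h : ∀ a ∈ A, ∀ b ∈ B, a.1 < b.1 ∧ a.2 < b.2 ∧ a.2 ≠ b.1) :
    LT A B := h

/-- three blocks -/
lemma three {c : ℕ → ℕ → Bool} {m k : ℕ} (hB : Bd c m k) {col : Bool} {A B C : Finset (ℕ × ℕ)}
    (hA1 : NN m A) (hB1 : NN m B) (hC1 : NN m C)
    (hA : ∀ e ∈ A, c e.1 e.2 = col) (hBc : ∀ e ∈ B, c e.1 e.2 = col) (hC : ∀ e ∈ C, c e.1 e.2 = col)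
    (h1 : LT A B) (h2 : LT A C) (h3 : LT B C) : A.card + B.card + C.card ≤ k := by
  have h := hB col ((A ∪ B) ∪ C) (nn_union (nn_union hA1 hB1 h1) hC1 (lt_union_left h2 h3)) ?_
  · rwa [card_union_lt (lt_union_left h2 h3), card_union_lt h1] at h
  · intro e he
    rcases mem_union.1 he with he | he
    · rcases mem_union.1 he with he | he
      · exact hA e he
      · exact hBc e he
    · exact hC e he

/-- five blocks -/
lemma five {c : ℕ → ℕ → Bool} {m k : ℕ} (hB : Bd c m k) {col : Bool} {A B C D F : Finset (ℕ × ℕ)}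
    (nA : NN m A) (nB : NN m B) (nC : NN m C) (nD : NN m D) (nF : NN m F)
    (cA : ∀ e ∈ A, c e.1 e.2 = col) (cB : ∀ e ∈ B, c e.1 e.2 = col) (cC : ∀ e ∈ C, c e.1 e.2 = col)
    (cD : ∀ e ∈ D, c e.1 e.2 = col) (cF : ∀ e ∈ F, c e.1 e.2 = col)
    (hAB : LT A B) (hAC : LT A C) (hAD : LT A D) (hAF : LT A F)
    (hBC : LT B C) (hBD : LT B D) (hBF : LT B F)
    (hCD : LT C D) (hCF : LT C F) (hDF : LT D F) :
    A.card + B.card + C.card + D.card + F.card ≤ k := by
  have n3 := nn_union (nn_union nA nB hAB) nC (lt_union_left hAC hBC)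
  have l3D : LT ((A ∪ B) ∪ C) D := lt_union_left (lt_union_left hAD hBD) hCD
  have l3F : LT ((A ∪ B) ∪ C) F := lt_union_left (lt_union_left hAF hBF) hCF
  have h := three hB n3 nD nF (col := col) ?_ cD cF l3D l3F hDF
  · rwa [card_union_lt (lt_union_left hAC hBC), card_union_lt hAB] at h
  · intro e he
    rcases mem_union.1 he with he | he
    · rcases mem_union.1 he with he | he
      · exact cA e he
      · exact cB e he
    · exact cC e he

lemma colsplit (I : Finset ℕ) (χ : ℕ → Bool) (col : Bool) :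
    (I.filter (fun i => χ i = col)).card + (I.filter (fun i => χ i = !col)).card = I.card := by
  have h := Finset.card_filter_add_card_filter_not (s := I) (fun i => χ i = col)
  have h2 : I.filter (fun i => χ i = !col) = I.filter (fun i => ¬ χ i = col) := by
    apply filter_congr
    intro i _
    cases χ i <;> cases col <;> simp
  rw [h2]; exact h

/-- coloured matching given by index functions on range s -/
lemma nn_filt {m s : ℕ} {f g : ℕ → ℕ} (p : ℕ → Prop) [DecidablePred p]
    (hf : ∀ i < s, ∀ j < s, i < j → f i < f j) (hg : ∀ i < s, ∀ j < s, i < j → g i < g j)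
    (hlt : ∀ i < s, f i < g i ∧ g i < m) (hd : ∀ i < s, ∀ j < s, f i ≠ g j) :
    NN m (E ((range s).filter p) f g) := by
  apply nn_E
  · intro i hi j hj h
    rw [mem_filter, mem_range] at hi hj
    exact hf i hi.1 j hj.1 h
  · intro i hi j hj h
    rw [mem_filter, mem_range] at hi hj
    exact hg i hi.1 j hj.1 h
  · intro i hi
    rw [mem_filter, mem_range] at hi
    exact hlt i hi.1
  · intro i hi j hj
    rw [mem_filter, mem_range] at hi hj
    exact hd i hi.1 j hj.1

lemma card_filt {s : ℕ} {f g : ℕ → ℕ} (p : ℕ → Prop) [DecidablePred p]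
    (hf : ∀ i < s, ∀ j < s, i < j → f i < f j) :
    (E ((range s).filter p) f g).card = ((range s).filter p).card := by
  apply card_E
  intro i hi j hj h
  rw [mem_filter, mem_range] at hi hj
  exact hf i hi.1 j hj.1 h

lemma relA1 {c : ℕ → ℕ → Bool} {u k e : ℕ} (hB : Bd c (16 * u) k) (h2k : 2 * k = 8 * u + e)
    (col : Bool) (p g h : ℕ) (hg : 2 * h ≤ g) (hm : p + g + h ≤ 16 * u) (hp : g ≤ p + h) :
    cnt c col p g h + cnt c (!col) (p + h) (g - h) h ≤ h + 2 * e + 2 := by
  classical
  by_contra hcon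
  rw [not_le] at hcon
  set Pr := ((range h).filter (fun i => c (p + i) (p + i + g) = col)).image (fun i => p + i) with hPr
  set Pb := ((range h).filter (fun i => c (p + h + i) (p + h + i + (g - h)) = !col)).image
    (fun i => p + h + i) with hPb
  have cPr : Pr.card = cnt c col p g h := by
    rw [hPr, card_image_of_injective _ (fun a b hab => by simpa using hab)]; rfl
  have cPb : Pb.card = cnt c (!col) (p + h) (g - h) h := by
    rw [hPb, card_image_of_injective _ (fun a b hab => by simpa using hab)]; rfl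
  have hdisj : Disjoint Pr Pb := by
    rw [Finset.disjoint_left]
    intro x hx hx'
    rw [hPr, mem_image] at hx
    rw [hPb, mem_image] at hx'
    obtain ⟨i, hi, rfl⟩ := hx
    obtain ⟨j, hj, hji⟩ := hx'
    rw [mem_filter, mem_range] at hi hj
    omega
  have hsub : Pr ∪ Pb ⊆ range (p + g) := by
    intro x hx
    rcases mem_union.1 hx with hx | hx
    · rw [hPr, mem_image] at hx
      obtain ⟨i, hi, rfl⟩ := hx
      rw [mem_filter, mem_range] at hi
      rw [mem_range]; omega
    · rw [hPb, mem_image] at hx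
      obtain ⟨i, hi, rfl⟩ := hx
      rw [mem_filter, mem_range] at hi
      rw [mem_range]; omega
  set S := range (p + g) \ (Pr ∪ Pb) with hS
  have cS : S.card + (cnt c col p g h + cnt c (!col) (p + h) (g - h) h) = p + g := by
    rw [hS, card_sdiff_of_subset hsub, card_union_of_disjoint hdisj, cPr, cPb, card_range]
    have := card_le_card hsub
    rw [card_union_of_disjoint hdisj, cPr, cPb, card_range] at this
    omega
  have hrp : range p ⊆ S := by
    intro x hx
    rw [mem_range] at hx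
    rw [hS, mem_sdiff, mem_range]
    refine ⟨by omega, ?_⟩
    intro hx'
    rcases mem_union.1 hx' with hx' | hx'
    · rw [hPr, mem_image] at hx'
      obtain ⟨i, hi, hh⟩ := hx'
      omega
    · rw [hPb, mem_image] at hx'
      obtain ⟨i, hi, hh⟩ := hx'
      omega
  obtain ⟨f, g', hf, hg', hfg, hd⟩ := exists_pm S (S.card / 2) p (by omega) (by omega) hrp
  set s := S.card / 2 with hs
  set t := (16 * u - (p + g + h)) / 2 with ht
  have hgS : ∀ i < s, g' i < p + g := by
    intro i hi
    have := (hfg i hi).2.2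
    rw [hS, mem_sdiff, mem_range] at this
    exact this.1
  have hgr : ∀ i < s, ∀ j < h, c (p + j) (p + j + g) = col → g' i ≠ p + j := by
    intro i hi j hj hc heq
    have := (hfg i hi).2.2
    rw [hS, mem_sdiff] at this
    apply this.2
    rw [mem_union]; left
    rw [hPr, mem_image]
    exact ⟨j, by rw [mem_filter, mem_range]; exact ⟨hj, hc⟩, heq.symm⟩
  have hgb : ∀ i < s, ∀ j < h, c (p + h + j) (p + h + j + (g - h)) = (!col) → g' i ≠ p + h + j := by
    intro i hi j hj hc heq
    have := (hfg i hi).2.2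
    rw [hS, mem_sdiff] at this
    apply this.2
    rw [mem_union]; right
    rw [hPb, mem_image]
    exact ⟨j, by rw [mem_filter, mem_range]; exact ⟨hj, hc⟩, heq.symm⟩
  -- colour col
  have key : ∀ col' : Bool, ∀ a' g'' : ℕ, ((a' = p ∧ g'' = g) ∨ (a' = p + h ∧ g'' = g - h)) →
      (∀ i < s, ∀ j < h, c (a' + j) (a' + j + g'') = col' → g' i ≠ a' + j) →
      ((range s).filter (fun i => c (f i) (g' i) = col')).card + cnt c col' a' g'' h
        + cnt c col' (p + g + h) t t ≤ k := by
    intro col' a' g'' hag hne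
    have h3 := three hB (col := col')
      (A := E ((range s).filter (fun i => c (f i) (g' i) = col')) f g')
      (B := Sh c col' a' g'' h) (C := Sh c col' (p + g + h) t t)
      (nn_filt _ hf hg' (fun i hi => ⟨(hfg i hi).2.1, by have := hgS i hi; omega⟩) hd)
      (nn_Sh c col' (by omega) (by omega))
      (nn_Sh c col' (by omega) (by omega)) ?_ ?_ ?_ ?_ ?_ ?_
    · rw [card_filt _ hf, card_Sh, card_Sh] at h3
      exact h3
    · intro x hx
      obtain ⟨i, hi, h1, h2⟩ := mem_E hx
      rw [mem_filter] at hi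
      rw [h1, h2]; exact hi.2
    · intro x hx
      obtain ⟨i, hi, h1, h2, h3⟩ := mem_Sh hx
      exact h3
    · intro x hx
      obtain ⟨i, hi, h1, h2, h3⟩ := mem_Sh hx
      exact h3
    · intro x hx y hy
      obtain ⟨i, hi, h1, h2⟩ := mem_E hx
      obtain ⟨j, hj, h3, h4, h5⟩ := mem_Sh hy
      rw [mem_filter, mem_range] at hi
      have a1 := hfg i hi.1
      have a2 := hgS i hi.1
      rw [h3, h4] at h5
      have a3 := hne i hi.1 j hj h5
      omega
    · intro x hx y hy
      obtain ⟨i, hi, h1, h2⟩ := mem_E hx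
      obtain ⟨j, hj, h3, h4, h5⟩ := mem_Sh hy
      rw [mem_filter, mem_range] at hi
      have a1 := hfg i hi.1
      have a2 := hgS i hi.1
      omega
    · intro x hx y hy
      obtain ⟨i, hi, h1, h2, _⟩ := mem_Sh hx
      obtain ⟨j, hj, h3, h4, h5⟩ := mem_Sh hy
      omega
  have k1 := key col p g (Or.inl ⟨rfl, rfl⟩) hgr
  have k2 := key (!col) (p + h) (g - h) (Or.inr ⟨rfl, rfl⟩) hgb
  have k3 := colsplit (range s) (fun i => c (f i) (g' i)) col
  have k4 := cnt_add c col (p + g + h) t t
  rw [card_range] at k3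
  omega

lemma relA {c : ℕ → ℕ → Bool} {u k e : ℕ} (hB : Bd c (16 * u) k) (h2k : 2 * k = 8 * u + e)
    (col : Bool) (p g h : ℕ) (hg : 2 * h ≤ g) (hm : p + g + h ≤ 16 * u) (hp : g ≤ p + h) :
    cnt c col p g h ≤ cnt c col (p + h) (g - h) h + 2 * e + 2 ∧
    cnt c col (p + h) (g - h) h ≤ cnt c col p g h + 2 * e + 2 := by
  have a1 := relA1 hB h2k col p g h hg hm hp
  have a2 := relA1 hB h2k (!col) p g h hg hm hp
  have a3 := cnt_add c col (p + h) (g - h) h
  have a4 := cnt_add c col p g h
  rw [Bool.not_not] at a2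
  omega

lemma relB {c : ℕ → ℕ → Bool} {u k e : ℕ} (hB : Bd c (16 * u) k) (h2k : 2 * k = 8 * u + e)
    (col : Bool) (p g h : ℕ) (hg : 2 * h ≤ g) (hm : p + g + h ≤ 16 * u) (hp : 2 * g + p ≤ 16 * u) :
    cnt c col p (g - h) h ≤ cnt c col p g h + 2 * e + 2 := by
  have a := (relA (bd_rev hB) h2k col (16 * u - p - h - g) g h hg (by omega) (by omega)).2
  rw [cnt_rev c col (16 * u) _ _ _ (by omega), cnt_rev c col (16 * u) _ _ _ (by omega)] at a
  have e1 : 16 * u - (16 * u - p - h - g + h) - h - (g - h) = p := by omega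
  have e2 : 16 * u - (16 * u - p - h - g) - h - g = p := by omega
  rw [e1, e2] at a
  exact a

lemma relG {c : ℕ → ℕ → Bool} {u k e : ℕ} (hB : Bd c (16 * u) k) (h2k : 2 * k = 8 * u + e)
    (col : Bool) : cnt c col (4 * u) (2 * u) (2 * u) ≤ cnt c col (8 * u) (2 * u) (2 * u) + 8 * e + 8 := by
  have b1 := relB hB h2k col (4 * u) (4 * u) (2 * u) (by omega) (by omega) (by omega)
  have b2 := relB hB h2k col (4 * u) (6 * u) (2 * u) (by omega) (by omega) (by omega)
  have b3 := (relA hB h2k col (4 * u) (6 * u) (2 * u) (by omega) (by omega) (by omega)).1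
  have b4 := (relA hB h2k col (6 * u) (4 * u) (2 * u) (by omega) (by omega) (by omega)).1
  have e1 : 4 * u - 2 * u = 2 * u := by omega
  have e2 : 6 * u - 2 * u = 4 * u := by omega
  have e3 : 4 * u + 2 * u = 6 * u := by omega
  have e4 : 6 * u + 2 * u = 8 * u := by omega
  rw [e1] at b1
  rw [e2] at b2
  rw [e2, e3] at b3
  rw [e1, e4] at b4
  omega

lemma tbound {c : ℕ → ℕ → Bool} {u k : ℕ} (hB : Bd c (16 * u) k) (col : Bool) :
    8 * u ≤ k + cnt c col 0 (2 * u) (2 * u) + cnt c col (4 * u) (2 * u) (2 * u)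
      + cnt c col (8 * u) (4 * u) (4 * u) := by
  have h3 := three hB (col := !col) (A := Sh c (!col) 0 (2 * u) (2 * u))
    (B := Sh c (!col) (4 * u) (2 * u) (2 * u)) (C := Sh c (!col) (8 * u) (4 * u) (4 * u))
    (nn_Sh c _ (by omega) (by omega)) (nn_Sh c _ (by omega) (by omega))
    (nn_Sh c _ (by omega) (by omega)) ?_ ?_ ?_ ?_ ?_ ?_
  · rw [card_Sh, card_Sh, card_Sh] at h3
    have a1 := cnt_add c col 0 (2 * u) (2 * u)
    have a2 := cnt_add c col (4 * u) (2 * u) (2 * u)
    have a3 := cnt_add c col (8 * u) (4 * u) (4 * u)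
    omega
  · intro x hx; obtain ⟨i, hi, h1, h2, h3⟩ := mem_Sh hx; exact h3
  · intro x hx; obtain ⟨i, hi, h1, h2, h3⟩ := mem_Sh hx; exact h3
  · intro x hx; obtain ⟨i, hi, h1, h2, h3⟩ := mem_Sh hx; exact h3
  · intro x hx y hy
    obtain ⟨i, hi, h1, h2, _⟩ := mem_Sh hx
    obtain ⟨j, hj, h3, h4, _⟩ := mem_Sh hy
    omega
  · intro x hx y hy
    obtain ⟨i, hi, h1, h2, _⟩ := mem_Sh hx
    obtain ⟨j, hj, h3, h4, _⟩ := mem_Sh hy
    omega
  · intro x hx y hy
    obtain ⟨i, hi, h1, h2, _⟩ := mem_Sh hx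
    obtain ⟨j, hj, h3, h4, _⟩ := mem_Sh hy
    omega

lemma cnt_succ (c : ℕ → ℕ → Bool) (col : Bool) (a g n : ℕ) :
    cnt c col a g (n + 1) = cnt c col a g n + if c (a + n) (a + n + g) = col then 1 else 0 := by
  unfold cnt
  rw [range_add_one, filter_insert]
  split_ifs with h
  · rw [card_insert_of_notMem (by simp)]
  · rfl

lemma cnt_append (c : ℕ → ℕ → Bool) (col : Bool) (a g s t : ℕ) :
    cnt c col a g (s + t) = cnt c col a g s + cnt c col (a + s) g t := by
  induction t with
  | zero => simp [cnt]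
  | succ t ih =>
    rw [← add_assoc, cnt_succ, cnt_succ, ih, add_assoc a s t]
    ring

def RF (c : ℕ → ℕ → Bool) (u e : ℕ) : Prop :=
  ∀ g ≤ 4 * u, ((range g).filter (fun z => c (8 * u + z) (8 * u + z + g) ≠
    c (8 * u + z) (8 * u + z + 4 * u))).card ≤ 4 * e

lemma rf_cnt {c : ℕ → ℕ → Bool} {u e : ℕ} (hR : RF c u e) (col : Bool) (a g q : ℕ)
    (h1 : a + q ≤ g) (h2 : g ≤ 4 * u) :
    cnt c col (8 * u + a) g q ≤ cnt c col (8 * u + a) (4 * u) q + 4 * e ∧
    cnt c col (8 * u + a) (4 * u) q ≤ cnt c col (8 * u + a) g q + 4 * e := by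
  have hR1 := hR g h2
  set X := (range q).filter (fun i => c (8 * u + a + i) (8 * u + a + i + g) ≠
    c (8 * u + a + i) (8 * u + a + i + 4 * u)) with hX
  have hXc : X.card ≤ 4 * e := by
    refine le_trans ?_ hR1
    apply card_le_card_of_injOn (fun i => a + i)
    · intro i hi
      rw [hX, mem_coe, mem_filter, mem_range] at hi
      rw [mem_coe, mem_filter, mem_range]
      refine ⟨by show a + i < g; omega, ?_⟩
      show c (8 * u + (a + i)) (8 * u + (a + i) + g) ≠ c (8 * u + (a + i)) (8 * u + (a + i) + 4 * u)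
      rw [← add_assoc]; exact hi.2
    · intro i _ j _ hij
      simpa using hij
  constructor
  · unfold cnt
    refine le_trans ?_ (Nat.add_le_add_left hXc _)
    refine le_trans (card_le_card ?_) (card_union_le _ _)
    intro i hi
    rw [mem_filter] at hi
    rw [mem_union]
    by_cases hc : c (8 * u + a + i) (8 * u + a + i + g) = c (8 * u + a + i) (8 * u + a + i + 4 * u)
    · left; rw [mem_filter]; exact ⟨hi.1, by rw [← hc]; exact hi.2⟩
    · right; rw [hX, mem_filter]; exact ⟨hi.1, hc⟩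
  · unfold cnt
    refine le_trans ?_ (Nat.add_le_add_left hXc _)
    refine le_trans (card_le_card ?_) (card_union_le _ _)
    intro i hi
    rw [mem_filter] at hi
    rw [mem_union]
    by_cases hc : c (8 * u + a + i) (8 * u + a + i + g) = c (8 * u + a + i) (8 * u + a + i + 4 * u)
    · left; rw [mem_filter]; exact ⟨hi.1, by rw [hc]; exact hi.2⟩
    · right; rw [hX, mem_filter]; exact ⟨hi.1, hc⟩

lemma cnt_le (c : ℕ → ℕ → Bool) (col : Bool) (a g s : ℕ) : cnt c col a g s ≤ s := by
  have := cnt_add c col a g s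
  omega

lemma klow {c : ℕ → ℕ → Bool} {u k e : ℕ} (hB : Bd c (16 * u) k) (h2k : 2 * k = 8 * u + e)
    (hR : RF c u e) (col : Bool) : 2 * u ≤ 10 * cnt c col (8 * u) (4 * u) u + 73 * e + 32 := by
  have t1 := tbound hB col
  have t2 := cnt_le c col 0 (2 * u) (2 * u)
  have t3 := relG hB h2k col
  have t4 := (rf_cnt hR col 0 (2 * u) (2 * u) (by omega) (by omega)).1
  rw [Nat.add_zero] at t4
  have t5 := cnt_append c col (8 * u) (4 * u) u u
  have t6 := cnt_append c col (8 * u) (4 * u) (2 * u) u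
  have t7 := cnt_append c col (8 * u) (4 * u) (3 * u) u
  have e0 : u + u = 2 * u := by omega
  have e1 : 2 * u + u = 3 * u := by omega
  have e2 : 3 * u + u = 4 * u := by omega
  have e3 : 8 * u + u = 9 * u := by omega
  have e4 : 8 * u + 2 * u = 10 * u := by omega
  have e5 : 8 * u + 3 * u = 11 * u := by omega
  rw [e0, e3] at t5
  rw [e1, e4] at t6
  rw [e2, e5] at t7
  have t8 := cnt_le c col (11 * u) (4 * u) u
  have r1 := (relA hB h2k col (8 * u) (4 * u) u (by omega) (by omega) (by omega)).2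
  have r2 := (relA hB h2k col (9 * u) (4 * u) u (by omega) (by omega) (by omega)).2
  have e6 : 4 * u - u = 3 * u := by omega
  have e7 : 9 * u + u = 10 * u := by omega
  rw [e6, e3] at r1
  rw [e6, e7] at r2
  have s1 := (rf_cnt hR col u (3 * u) u (by omega) (by omega)).2
  have s2 := (rf_cnt hR col (2 * u) (3 * u) u (by omega) (by omega)).2
  rw [e3] at s1
  rw [e4] at s2
  omega

lemma aug {c : ℕ → ℕ → Bool} {u k e : ℕ} (hB : Bd c (16 * u) k) (h2k : 2 * k = 8 * u + e)
    (h g : ℕ) (hh : h ≤ 4 * u) (hg : g ≤ 4 * u) (I : Finset ℕ) (y z : ℕ → ℕ)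
    (hy : ∀ i ∈ I, ∀ j ∈ I, i < j → y i < y j) (hz : ∀ i ∈ I, ∀ j ∈ I, i < j → z i < z j)
    (hyr : ∀ i ∈ I, 8 * u ≤ y i + h ∧ y i < 8 * u) (hzr : ∀ i ∈ I, 8 * u ≤ z i ∧ z i < 8 * u + g)
    (h1 : ∀ i ∈ I, c (y i - h) (y i) ≠ c (y i) (z i))
    (h2 : ∀ i ∈ I, c (z i) (z i + g) ≠ c (y i) (z i)) : I.card ≤ e := by
  have key : ∀ col : Bool, cnt c col 0 (4 * u - h) (4 * u - h) + cnt c col (8 * u - 2 * h) h h
      + (I.filter (fun i => c (y i) (z i) = col)).card + cnt c col (8 * u) g g
      + cnt c col (8 * u + 2 * g) (4 * u - g) (4 * u - g) ≤ k := by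
    intro col
    have h5 := five hB (col := col) (A := Sh c col 0 (4 * u - h) (4 * u - h))
      (B := Sh c col (8 * u - 2 * h) h h)
      (C := E (I.filter (fun i => c (y i) (z i) = col)) y z)
      (D := Sh c col (8 * u) g g) (F := Sh c col (8 * u + 2 * g) (4 * u - g) (4 * u - g))
      (nn_Sh c _ (by omega) (by omega)) (nn_Sh c _ (by omega) (by omega))
      (by
        apply nn_E
        · intro i hi j hj hij
          exact hy i (mem_filter.1 hi).1 j (mem_filter.1 hj).1 hij
        · intro i hi j hj hij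
          exact hz i (mem_filter.1 hi).1 j (mem_filter.1 hj).1 hij
        · intro i hi
          have a1 := hyr i (mem_filter.1 hi).1
          have a2 := hzr i (mem_filter.1 hi).1
          omega
        · intro i hi j hj
          have a1 := hyr i (mem_filter.1 hi).1
          have a2 := hzr j (mem_filter.1 hj).1
          omega)
      (nn_Sh c _ (by omega) (by omega)) (nn_Sh c _ (by omega) (by omega))
      ?_ ?_ ?_ ?_ ?_ ?_ ?_ ?_ ?_ ?_ ?_ ?_ ?_ ?_ ?_
    · rw [card_Sh, card_Sh, card_Sh, card_Sh, card_E] at h5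
      · exact h5
      · intro i hi j hj hij
        exact hy i (mem_filter.1 hi).1 j (mem_filter.1 hj).1 hij
    · intro x hx; obtain ⟨i, hi, h1, h2, h3⟩ := mem_Sh hx; exact h3
    · intro x hx; obtain ⟨i, hi, h1, h2, h3⟩ := mem_Sh hx; exact h3
    · intro x hx
      obtain ⟨i, hi, h1, h2⟩ := mem_E hx
      rw [mem_filter] at hi
      rw [h1, h2]; exact hi.2
    · intro x hx; obtain ⟨i, hi, h1, h2, h3⟩ := mem_Sh hx; exact h3
    · intro x hx; obtain ⟨i, hi, h1, h2, h3⟩ := mem_Sh hx; exact h3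
    · -- A B
      intro x hx w hw
      obtain ⟨i, hi, h3, h4, _⟩ := mem_Sh hx
      obtain ⟨j, hj, h5, h6, _⟩ := mem_Sh hw
      omega
    · -- A C
      intro x hx w hw
      obtain ⟨i, hi, h3, h4, _⟩ := mem_Sh hx
      obtain ⟨j, hj, h5, h6⟩ := mem_E hw
      have a1 := hyr j (mem_filter.1 hj).1
      have a2 := hzr j (mem_filter.1 hj).1
      omega
    · intro x hx w hw
      obtain ⟨i, hi, h3, h4, _⟩ := mem_Sh hx
      obtain ⟨j, hj, h5, h6, _⟩ := mem_Sh hw
      omega
    · intro x hx w hw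
      obtain ⟨i, hi, h3, h4, _⟩ := mem_Sh hx
      obtain ⟨j, hj, h5, h6, _⟩ := mem_Sh hw
      omega
    · -- B C
      intro x hx w hw
      obtain ⟨i, hi, h3, h4, hc⟩ := mem_Sh hx
      obtain ⟨j, hj, h5, h6⟩ := mem_E hw
      rw [mem_filter] at hj
      have a1 := hyr j hj.1
      have a2 := hzr j hj.1
      refine ⟨by omega, by omega, ?_⟩
      intro heq
      apply h1 j hj.1
      have e1 : y j = x.2 := by omega
      have e2 : y j - h = x.1 := by omega
      rw [e2, hj.2]
      rw [e1]; exact hc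
    · intro x hx w hw
      obtain ⟨i, hi, h3, h4, _⟩ := mem_Sh hx
      obtain ⟨j, hj, h5, h6, _⟩ := mem_Sh hw
      omega
    · intro x hx w hw
      obtain ⟨i, hi, h3, h4, _⟩ := mem_Sh hx
      obtain ⟨j, hj, h5, h6, _⟩ := mem_Sh hw
      omega
    · -- C D
      intro x hx w hw
      obtain ⟨i, hi, h3, h4⟩ := mem_E hx
      obtain ⟨j, hj, h5, h6, hc⟩ := mem_Sh hw
      rw [mem_filter] at hi
      have a1 := hyr i hi.1
      have a2 := hzr i hi.1
      refine ⟨by omega, by omega, ?_⟩
      intro heq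
      apply h2 i hi.1
      have e1 : z i = w.1 := by omega
      have e2 : z i + g = w.2 := by omega
      rw [e2, hi.2]
      rw [e1]; exact hc
    · intro x hx w hw
      obtain ⟨i, hi, h3, h4⟩ := mem_E hx
      obtain ⟨j, hj, h5, h6, hc⟩ := mem_Sh hw
      rw [mem_filter] at hi
      have a1 := hyr i hi.1
      have a2 := hzr i hi.1
      omega
    · intro x hx w hw
      obtain ⟨i, hi, h3, h4, _⟩ := mem_Sh hx
      obtain ⟨j, hj, h5, h6, _⟩ := mem_Sh hw
      omega
  have k1 := key true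
  have k2 := key false
  have c1 := cnt_add c true 0 (4 * u - h) (4 * u - h)
  have c2 := cnt_add c true (8 * u - 2 * h) h h
  have c3 := cnt_add c true (8 * u) g g
  have c4 := cnt_add c true (8 * u + 2 * g) (4 * u - g) (4 * u - g)
  have c5 := colsplit I (fun i => c (y i) (z i)) true
  rw [Bool.not_true] at c1 c2 c3 c4 c5
  omega

lemma exists_enum (T : Finset ℕ) (n : ℕ) (h : n ≤ T.card) :
    ∃ f : ℕ → ℕ, (∀ i < n, ∀ j < n, i < j → f i < f j) ∧ ∀ i < n, f i ∈ T := by
  let e := T.orderEmbOfFin rfl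
  refine ⟨fun i => if h : i < T.card then e ⟨i, h⟩ else 0, ?_, ?_⟩
  · intro i hi j hj hij
    have a1 : i < T.card := by omega
    have a2 : j < T.card := by omega
    simp only [a1, a2, dif_pos]
    exact e.strictMono (by simpa using hij)
  · intro i hi
    have a1 : i < T.card := by omega
    simp only [a1, dif_pos]
    exact T.orderEmbOfFin_mem rfl _

lemma dichotomy {c : ℕ → ℕ → Bool} {u k e : ℕ} (hB : Bd c (16 * u) k) (h2k : 2 * k = 8 * u + e) :
    RF c u e ∨ RF (fun i j => c (16 * u - 1 - j) (16 * u - 1 - i)) u e := by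
  classical
  by_contra hcon
  rw [not_or] at hcon
  obtain ⟨hc1, hc2⟩ := hcon
  unfold RF at hc1 hc2
  push Not at hc1 hc2
  obtain ⟨g, hg, hZ⟩ := hc1
  obtain ⟨h, hh, hY⟩ := hc2
  set Z := (range g).filter (fun z => c (8 * u + z) (8 * u + z + g) ≠
    c (8 * u + z) (8 * u + z + 4 * u)) with hZd
  set Y := ((range h).filter (fun z => c (16 * u - 1 - (8 * u + z + h)) (16 * u - 1 - (8 * u + z)) ≠
    c (16 * u - 1 - (8 * u + z + 4 * u)) (16 * u - 1 - (8 * u + z)))) with hYd
  have hYi : (Y.image (fun z => 8 * u - 1 - z)).card = Y.card := by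
    apply card_image_of_injOn
    intro a ha b hb hab
    rw [hYd, mem_coe, mem_filter, mem_range] at ha hb
    simp only at hab
    omega
  obtain ⟨zf, hz1, hz2⟩ := exists_enum Z (4 * e + 1) (by omega)
  obtain ⟨yf, hy1, hy2⟩ := exists_enum (Y.image (fun z => 8 * u - 1 - z)) (4 * e + 1) (by omega)
  have hyp : ∀ i < 4 * e + 1, 8 * u ≤ yf i + h ∧ yf i < 8 * u ∧
      c (yf i - h) (yf i) ≠ c (yf i - 4 * u) (yf i) := by
    intro i hi
    have := hy2 i hi
    rw [mem_image] at this
    obtain ⟨w, hw, hwi⟩ := this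
    rw [hYd, mem_filter, mem_range] at hw
    refine ⟨by omega, by omega, ?_⟩
    have e1 : 16 * u - 1 - (8 * u + w + h) = yf i - h := by omega
    have e2 : 16 * u - 1 - (8 * u + w) = yf i := by omega
    have e3 : 16 * u - 1 - (8 * u + w + 4 * u) = yf i - 4 * u := by omega
    have h3 := hw.2
    rw [e1, e2, e3] at h3
    exact h3
  have hzp : ∀ i < 4 * e + 1, zf i < g ∧ c (8 * u + zf i) (8 * u + zf i + g) ≠
      c (8 * u + zf i) (8 * u + zf i + 4 * u) := by
    intro i hi
    have := hz2 i hi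
    rw [hZd, mem_filter, mem_range] at this
    exact this
  -- classes
  let cls : ℕ → Bool × Bool := fun i =>
    (decide (c (yf i - h) (yf i) ≠ c (yf i) (8 * u + zf i)),
     decide (c (8 * u + zf i) (8 * u + zf i + g) ≠ c (yf i) (8 * u + zf i)))
  have hpig := Finset.exists_lt_card_fiber_of_mul_lt_card_of_maps_to
    (s := range (4 * e + 1)) (t := (Finset.univ : Finset (Bool × Bool))) (f := cls) (n := e)
    (fun a _ => mem_univ _) (by rw [card_range]; simp)
  obtain ⟨⟨b1, b2⟩, _, hcard⟩ := hpig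
  have hI : ∀ i ∈ (range (4 * e + 1)).filter (fun i => cls i = (b1, b2)), i < 4 * e + 1 ∧
      cls i = (b1, b2) := by
    intro i hi
    rw [mem_filter, mem_range] at hi
    exact hi
  have hfin := aug hB h2k (if b1 then h else 4 * u) (if b2 then g else 4 * u)
    (by split_ifs <;> omega) (by split_ifs <;> omega)
    ((range (4 * e + 1)).filter (fun i => cls i = (b1, b2))) yf (fun i => 8 * u + zf i)
    (fun i hi j hj hij => hy1 i (hI i hi).1 j (hI j hj).1 hij)
    (fun i hi j hj hij => by
      have := hz1 i (hI i hi).1 j (hI j hj).1 hij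
      show 8 * u + zf i < 8 * u + zf j
      omega)
    (fun i hi => by
      have := hyp i (hI i hi).1
      split_ifs <;> omega)
    (fun i hi => by
      have := hzp i (hI i hi).1
      show 8 * u ≤ 8 * u + zf i ∧ 8 * u + zf i < 8 * u + _
      split_ifs <;> omega)
    (fun i hi => by
      have a1 := hyp i (hI i hi).1
      have a2 := (hI i hi).2
      simp only [cls, Prod.mk.injEq] at a2
      have a3 := a2.1
      cases b1 with
      | true =>
        simp only [if_true]
        simpa using a3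
      | false =>
        simp only [Bool.false_eq_true, if_false]
        have a4 : c (yf i - h) (yf i) = c (yf i) (8 * u + zf i) := by simpa using a3
        rw [← a4]
        exact fun h' => a1.2.2 h'.symm)
    (fun i hi => by
      have a1 := hzp i (hI i hi).1
      have a2 := (hI i hi).2
      simp only [cls, Prod.mk.injEq] at a2
      have a3 := a2.2
      cases b2 with
      | true =>
        simp only [if_true]
        simpa using a3
      | false =>
        simp only [Bool.false_eq_true, if_false]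
        have a4 : c (8 * u + zf i) (8 * u + zf i + g) = c (yf i) (8 * u + zf i) := by simpa using a3
        rw [← a4]
        exact fun h' => a1.2 h'.symm)
  omega

/-- number of earlier rows with the same type -/
def rk (c : ℕ → ℕ → Bool) (u z : ℕ) : ℕ :=
  ((range z).filter (fun w => c (8 * u + w) (8 * u + w + 4 * u) =
    c (8 * u + z) (8 * u + z + 4 * u))).card

lemma rk_le (c : ℕ → ℕ → Bool) (u z : ℕ) : rk c u z ≤ z := by
  unfold rk
  calc _ ≤ (range z).card := card_filter_le _ _
    _ = z := card_range z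

lemma rk_lt (c : ℕ → ℕ → Bool) (u z : ℕ) (n : ℕ) (hz : z < n) (col : Bool)
    (h : c (8 * u + z) (8 * u + z + 4 * u) = col) : rk c u z < cnt c col (8 * u) (4 * u) n := by
  unfold rk cnt
  apply card_lt_card
  rw [h]
  refine ⟨?_, ?_⟩
  · intro w hw
    rw [mem_filter, mem_range] at hw ⊢
    exact ⟨by omega, hw.2⟩
  · intro hsub
    have : z ∈ (range n).filter (fun i => c (8 * u + i) (8 * u + i + 4 * u) = col) := by
      rw [mem_filter, mem_range]; exact ⟨hz, h⟩
    have h2 := hsub this
    rw [mem_filter, mem_range] at h2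
    omega

lemma rk_mono (c : ℕ → ℕ → Bool) (u : ℕ) (z z' : ℕ) (hz : z < z') (col : Bool)
    (h : c (8 * u + z) (8 * u + z + 4 * u) = col) (h' : c (8 * u + z') (8 * u + z' + 4 * u) = col) :
    rk c u z < rk c u z' := by
  have := rk_lt c u z z' hz col h
  have e : rk c u z' = cnt c col (8 * u) (4 * u) z' := by
    unfold rk cnt
    rw [h']
  omega

def Bad (c : ℕ → ℕ → Bool) (u c0 : ℕ) : Finset ℕ :=
  (range u).filter (fun z => c (8 * u + z) (8 * u + c0 + rk c u z) ≠
    c (8 * u + z) (8 * u + z + 4 * u))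

lemma exists_good {c : ℕ → ℕ → Bool} {u e : ℕ} (hu : 0 < u) (hR : RF c u e) :
    ∃ c0, 2 * u ≤ c0 ∧ c0 < 4 * u ∧ (Bad c u c0).card ≤ 6 * e := by
  classical
  by_contra hcon
  push Not at hcon
  have h1 : (2 * u) * (6 * e + 1) ≤ ∑ c0 ∈ Ico (2 * u) (4 * u), (Bad c u c0).card := by
    have : ∑ c0 ∈ Ico (2 * u) (4 * u), (6 * e + 1) ≤ ∑ c0 ∈ Ico (2 * u) (4 * u), (Bad c u c0).card := by
      apply sum_le_sum
      intro c0 hc0
      rw [mem_Ico] at hc0
      have := hcon c0 hc0.1 hc0.2
      omega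
    rw [sum_const, Nat.card_Ico, smul_eq_mul] at this
    have e1 : 4 * u - 2 * u = 2 * u := by omega
    rw [e1] at this
    exact this
  have h2 : ∑ c0 ∈ Ico (2 * u) (4 * u), (Bad c u c0).card ≤
      ∑ g ∈ Ico u (4 * u), ((range g).filter (fun z => c (8 * u + z) (8 * u + z + g) ≠
        c (8 * u + z) (8 * u + z + 4 * u))).card := by
    rw [← card_sigma, ← card_sigma]
    apply card_le_card_of_injOn (fun p : (_ : ℕ) × ℕ => (⟨p.1 + rk c u p.2 - p.2, p.2⟩ : (_ : ℕ) × ℕ))
    · rintro ⟨c0, z⟩ hp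
      rw [mem_coe, mem_sigma] at hp ⊢
      simp only [Bad, mem_Ico, mem_filter, mem_range] at hp ⊢
      have a1 := rk_le c u z
      have e1 : 8 * u + c0 + rk c u z = 8 * u + z + (c0 + rk c u z - z) := by omega
      refine ⟨by omega, by omega, ?_⟩
      rw [← e1]
      exact hp.2.2
    · rintro ⟨c0, z⟩ hp ⟨c1, z1⟩ hp1 heq
      rw [mem_coe, mem_sigma] at hp hp1
      simp only [Bad, mem_Ico, mem_filter, mem_range] at hp hp1
      simp only [Sigma.mk.injEq, heq_eq_eq] at heq
      obtain ⟨q1, q2⟩ := heq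
      subst q2
      have : c0 = c1 := by omega
      subst this
      rfl
  have h3 : ∑ g ∈ Ico u (4 * u), ((range g).filter (fun z => c (8 * u + z) (8 * u + z + g) ≠
        c (8 * u + z) (8 * u + z + 4 * u))).card ≤ (3 * u) * (4 * e) := by
    have : ∑ g ∈ Ico u (4 * u), ((range g).filter (fun z => c (8 * u + z) (8 * u + z + g) ≠
        c (8 * u + z) (8 * u + z + 4 * u))).card ≤ ∑ g ∈ Ico u (4 * u), 4 * e := by
      apply sum_le_sum
      intro g hg
      rw [mem_Ico] at hg
      exact hR g (by omega)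
    rw [sum_const, Nat.card_Ico, smul_eq_mul] at this
    have e1 : 4 * u - u = 3 * u := by omega
    rw [e1] at this
    exact this
  have h4 : (2 * u) * (6 * e + 1) = 12 * (u * e) + 2 * u := by ring
  have h5 : (3 * u) * (4 * e) = 12 * (u * e) := by ring
  omega

lemma gadget {c : ℕ → ℕ → Bool} {u k e : ℕ} (hB : Bd c (16 * u) k) (h2k : 2 * k = 8 * u + e)
    (c0 q : ℕ) (h1 : 2 * u ≤ c0) (h2 : c0 < 4 * u) (hq1 : q ≤ u)
    (hq : ∀ col, cnt c col (8 * u) (4 * u) u ≤ q) : u ≤ q + 2 * e + 2 * (Bad c u c0).card + 2 := by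
  classical
  set S := range (8 * u + c0) \ Ico (8 * u) (9 * u) with hS
  have cS : S.card = 7 * u + c0 := by
    rw [hS, card_sdiff_of_subset, card_range, Nat.card_Ico]
    · omega
    · intro x hx
      rw [mem_Ico] at hx
      rw [mem_range]; omega
  have hsub : range (8 * u) ⊆ S := by
    intro x hx
    rw [mem_range] at hx
    rw [hS, mem_sdiff, mem_range, mem_Ico]
    omega
  obtain ⟨f, g', hf, hg', hfg, hd⟩ := exists_pm S (S.card / 2) (8 * u) (by omega) (by omega) hsub
  set s := S.card / 2 with hs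
  set t := (8 * u - c0 - q) / 2 with ht
  have hgS : ∀ i < s, g' i < 8 * u + c0 ∧ ¬ (8 * u ≤ g' i ∧ g' i < 9 * u) := by
    intro i hi
    have := (hfg i hi).2.2
    rw [hS, mem_sdiff, mem_range, mem_Ico] at this
    exact this
  have key : ∀ col : Bool, ((range s).filter (fun i => c (f i) (g' i) = col)).card
      + ((range u).filter (fun z => c (8 * u + z) (8 * u + z + 4 * u) = col ∧
          c (8 * u + z) (8 * u + c0 + rk c u z) = col)).card
      + cnt c col (8 * u + c0 + q) t t ≤ k := by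
    intro col
    have hI : ∀ z ∈ (range u).filter (fun z => c (8 * u + z) (8 * u + z + 4 * u) = col ∧
          c (8 * u + z) (8 * u + c0 + rk c u z) = col), z < u ∧ rk c u z < q ∧
          c (8 * u + z) (8 * u + z + 4 * u) = col ∧ c (8 * u + z) (8 * u + c0 + rk c u z) = col := by
      intro z hz
      rw [mem_filter, mem_range] at hz
      have a1 := rk_lt c u z u hz.1 col hz.2.1
      have a2 := hq col
      exact ⟨hz.1, by omega, hz.2.1, hz.2.2⟩
    have h3 := three hB (col := col)
      (A := E ((range s).filter (fun i => c (f i) (g' i) = col)) f g')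
      (B := E ((range u).filter (fun z => c (8 * u + z) (8 * u + z + 4 * u) = col ∧
          c (8 * u + z) (8 * u + c0 + rk c u z) = col)) (fun z => 8 * u + z)
          (fun z => 8 * u + c0 + rk c u z))
      (C := Sh c col (8 * u + c0 + q) t t)
      (nn_filt _ hf hg' (fun i hi => ⟨(hfg i hi).2.1, by have := hgS i hi; omega⟩) hd)
      (by
        apply nn_E
        · intro i hi j hj hij
          show 8 * u + i < 8 * u + j
          omega
        · intro i hi j hj hij
          have a1 := hI i hi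
          have a2 := hI j hj
          have := rk_mono c u i j hij col a1.2.2.1 a2.2.2.1
          show 8 * u + c0 + rk c u i < 8 * u + c0 + rk c u j
          omega
        · intro i hi
          have a1 := hI i hi
          show 8 * u + i < 8 * u + c0 + rk c u i ∧ 8 * u + c0 + rk c u i < 16 * u
          omega
        · intro i hi j hj
          have a1 := hI i hi
          show 8 * u + i ≠ 8 * u + c0 + rk c u j
          omega)
      (nn_Sh c col (by omega) (by omega)) ?_ ?_ ?_ ?_ ?_ ?_
    · rw [card_filt _ hf, card_Sh, card_E] at h3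
      · exact h3
      · intro i hi j hj hij
        show 8 * u + i < 8 * u + j
        omega
    · intro x hx
      obtain ⟨i, hi, h1, h2⟩ := mem_E hx
      rw [mem_filter] at hi
      rw [h1, h2]; exact hi.2
    · intro x hx
      obtain ⟨i, hi, h1, h2⟩ := mem_E hx
      rw [h1, h2]; exact (hI i hi).2.2.2
    · intro x hx
      obtain ⟨i, hi, h1, h2, h3⟩ := mem_Sh hx
      exact h3
    · intro x hx y hy
      obtain ⟨i, hi, h1, h2⟩ := mem_E hx
      obtain ⟨j, hj, h3, h4⟩ := mem_E hy
      rw [mem_filter, mem_range] at hi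
      have a1 := hfg i hi.1
      have a2 := hgS i hi.1
      have a3 := hI j hj
      omega
    · intro x hx y hy
      obtain ⟨i, hi, h1, h2⟩ := mem_E hx
      obtain ⟨j, hj, h3, h4, _⟩ := mem_Sh hy
      rw [mem_filter, mem_range] at hi
      have a1 := hfg i hi.1
      have a2 := hgS i hi.1
      omega
    · intro x hx y hy
      obtain ⟨i, hi, h1, h2⟩ := mem_E hx
      obtain ⟨j, hj, h3, h4, _⟩ := mem_Sh hy
      have a3 := hI i hi
      omega
  have k1 := key true
  have k2 := key false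
  have k3 := colsplit (range s) (fun i => c (f i) (g' i)) true
  have k4 := cnt_add c true (8 * u + c0 + q) t t
  have k5 : u ≤ ((range u).filter (fun z => c (8 * u + z) (8 * u + z + 4 * u) = true ∧
          c (8 * u + z) (8 * u + c0 + rk c u z) = true)).card
        + ((range u).filter (fun z => c (8 * u + z) (8 * u + z + 4 * u) = false ∧
          c (8 * u + z) (8 * u + c0 + rk c u z) = false)).card + (Bad c u c0).card := by
    have hsub2 : range u ⊆ (((range u).filter (fun z => c (8 * u + z) (8 * u + z + 4 * u) = true ∧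
          c (8 * u + z) (8 * u + c0 + rk c u z) = true))
        ∪ ((range u).filter (fun z => c (8 * u + z) (8 * u + z + 4 * u) = false ∧
          c (8 * u + z) (8 * u + c0 + rk c u z) = false))) ∪ Bad c u c0 := by
      intro z hz
      rw [mem_union, mem_union, mem_filter, mem_filter]
      unfold Bad
      rw [mem_filter]
      cases h7 : c (8 * u + z) (8 * u + z + 4 * u) <;>
        cases h8 : c (8 * u + z) (8 * u + c0 + rk c u z) <;> simp_all
    have a1 := card_le_card hsub2
    rw [card_range] at a1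
    exact a1.trans ((card_union_le _ _).trans (Nat.add_le_add_right (card_union_le _ _) _))
  rw [card_range, Bool.not_true] at k3
  rw [Bool.not_true] at k4
  omega

lemma half_case {c : ℕ → ℕ → Bool} {u k e : ℕ} (hu : 0 < u) (hB : Bd c (16 * u) k)
    (h2k : 2 * k = 8 * u + e) (hR : RF c u e) : 2 * u ≤ 213 * e + 52 := by
  obtain ⟨c0, h1, h2, h3⟩ := exists_good hu hR
  have a1 := klow hB h2k hR true
  have a2 := klow hB h2k hR false
  have a3 := cnt_add c true (8 * u) (4 * u) u
  rw [Bool.not_true] at a3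
  have a4 := gadget hB h2k c0 (max (cnt c true (8 * u) (4 * u) u) (cnt c false (8 * u) (4 * u) u))
    h1 h2 (by rw [max_le_iff]; omega) (by
      intro col
      cases col
      · exact le_max_right _ _
      · exact le_max_left _ _)
  rcases le_total (cnt c true (8 * u) (4 * u) u) (cnt c false (8 * u) (4 * u) u) with h | h
  · rw [max_eq_right h] at a4
    omega
  · rw [max_eq_left h] at a4
    omega

theorem main {c : ℕ → ℕ → Bool} {u k e : ℕ} (hu : 0 < u) (hB : Bd c (16 * u) k)
    (h2k : 2 * k = 8 * u + e) : 2 * u ≤ 213 * e + 52 := by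
  rcases dichotomy hB h2k with h | h
  · exact half_case hu hB h2k h
  · exact half_case hu (bd_rev hB) h2k h

lemma nn_subset {m : ℕ} {M M' : Finset (ℕ × ℕ)} (h : NN m M) (hs : M' ⊆ M) : NN m M' :=
  ⟨fun e he => h.1 e (hs he), fun e he f hf hne => h.2 e (hs he) f (hs hf) hne⟩

lemma nn_mono {m m' : ℕ} {M : Finset (ℕ × ℕ)} (h : NN m M) (hm : m ≤ m') : NN m' M :=
  ⟨fun e he => ⟨(h.1 e he).1, lt_of_lt_of_le (h.1 e he).2 hm⟩, h.2⟩

lemma exists_big (n m : ℕ) (h : 3408 * n + 9804 ≤ 853 * m) (c : ℕ → ℕ → Bool) :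
    ∃ col : Bool, ∃ M : Finset (ℕ × ℕ), NN m M ∧ (∀ e ∈ M, c e.1 e.2 = col) ∧ M.card = n := by
  classical
  by_contra hcon
  push Not at hcon
  have hn : 1 ≤ n := by
    by_contra h0
    have : n = 0 := by omega
    subst this
    exact hcon true ∅ ⟨by simp, by simp⟩ (by simp) (by simp)
  obtain ⟨k, rfl⟩ : ∃ k, n = k + 1 := ⟨n - 1, by omega⟩
  have hB : Bd c (16 * (m / 16)) k := by
    intro col M hM hc
    by_contra hk
    obtain ⟨M', hM', hcard⟩ := exists_subset_card_eq (s := M) (n := k + 1) (by omega)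
    exact hcon col M' (nn_mono (nn_subset hM hM') (by omega)) (fun e he => hc e (hM' he)) hcard
  have hu : 0 < m / 16 := by omega
  have t1 := tbound hB true
  have t2 := tbound hB false
  have a1 := cnt_add c true 0 (2 * (m / 16)) (2 * (m / 16))
  have a2 := cnt_add c true (4 * (m / 16)) (2 * (m / 16)) (2 * (m / 16))
  have a3 := cnt_add c true (8 * (m / 16)) (4 * (m / 16)) (4 * (m / 16))
  rw [Bool.not_true] at a1 a2 a3
  have hk2 : 8 * (m / 16) ≤ 2 * k := by omega
  have hmain := main hu hB (e := 2 * k - 8 * (m / 16)) (by omega)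
  omega

lemma forces_of (n m : ℕ) (h : 3408 * n + 9804 ≤ 853 * m) : Forces n m := by
  classical
  intro c
  obtain ⟨col, M, hM, hc, hcard⟩ := exists_big n m h
    (fun i j => if hij : i < m ∧ j < m then c ⟨i, hij.1⟩ ⟨j, hij.2⟩ else false)
  have hmem : ∀ e ∈ M, e.1 < m ∧ e.2 < m := by
    intro e he
    have := hM.1 e he
    omega
  refine ⟨Finset.univ.filter (fun e : Fin m × Fin m => ((e.1 : ℕ), (e.2 : ℕ)) ∈ M), ?_, ?_, ?_, ?_,
    col, ?_⟩
  · rw [← hcard]
    apply card_bij (fun (e : Fin m × Fin m) _ => ((e.1 : ℕ), (e.2 : ℕ)))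
    · intro e he
      exact (mem_filter.1 he).2
    · intro e _ e' _ heq
      simp only [Prod.mk.injEq] at heq
      exact Prod.ext (Fin.ext heq.1) (Fin.ext heq.2)
    · intro e he
      have := hmem e he
      refine ⟨(⟨e.1, this.1⟩, ⟨e.2, this.2⟩), ?_, rfl⟩
      rw [mem_filter]
      exact ⟨mem_univ _, he⟩
  · intro e he
    have := hM.1 _ (mem_filter.1 he).2
    exact this.1
  · intro e he e' he' hne
    have h1 := (mem_filter.1 he).2
    have h2 := (mem_filter.1 he').2
    have hne' : (((e.1 : ℕ), (e.2 : ℕ)) : ℕ × ℕ) ≠ ((e'.1 : ℕ), (e'.2 : ℕ)) := by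
      intro heq
      simp only [Prod.mk.injEq] at heq
      exact hne (Prod.ext (Fin.ext heq.1) (Fin.ext heq.2))
    have h3 := hM.2 _ h1 _ h2 hne'
    simp only at h3
    simp only [ne_eq, Fin.ext_iff]
    omega
  · intro e he e' he' hnest
    have h1 := (mem_filter.1 he).2
    have h2 := (mem_filter.1 he').2
    have hne' : (((e.1 : ℕ), (e.2 : ℕ)) : ℕ × ℕ) ≠ ((e'.1 : ℕ), (e'.2 : ℕ)) := by
      intro heq
      simp only [Prod.mk.injEq] at heq
      have := hnest.1
      rw [Fin.lt_def] at this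
      omega
    have h3 := hM.2 _ h1 _ h2 hne'
    simp only at h3
    simp only [Fin.lt_def] at hnest
    omega
  · intro e he
    have h1 := (mem_filter.1 he).2
    have h2 := hc _ h1
    simp only at h2
    rw [dif_pos ⟨e.1.2, e.2.2⟩] at h2
    exact h2

/-- `f(n) ≤ (4 - 4/853) n + 12.5` for every `n`. -/
theorem result (n : ℕ) : Forces n (f n) ∧ (f n : ℝ) ≤ (4 - 4 / 853) * n + 25 / 2 := by
  have h0 : Forces n ((3408 * n + 9804) / 853 + 1) := forces_of n _ (by omega)
  refine ⟨Nat.sInf_mem (s := {m : ℕ | Forces n m}) ⟨_, h0⟩, ?_⟩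
  have h1 : 853 * f n ≤ 3408 * n + 10656 := by
    by_cases hd : (3408 * n + 9804) % 853 = 0
    · have h2 : Forces n ((3408 * n + 9804) / 853) := forces_of n _ (by omega)
      have h3 : f n ≤ (3408 * n + 9804) / 853 := Nat.sInf_le h2
      omega
    · have h3 : f n ≤ (3408 * n + 9804) / 853 + 1 := Nat.sInf_le h0
      omega
  have h2 : (853 : ℝ) * f n ≤ 3408 * n + 10656 := by exact_mod_cast h1
  have h3 : ((4 : ℝ) - 4 / 853) * n + 25 / 2 = (3408 * n + 10662.5) / 853 := by ring
  rw [h3, le_div_iff₀ (by norm_num)]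
  linarith

end Pool.Agent.Results.MP_42cd19_co.LinearGap
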